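import Pool.Agent.Helper63.P705.NUM.Goals

/-!
# Packet NUM-N1: series of the incomplete Gamma function
-/

namespace Pool.Agent.Helper32.P705

open Pool.Agent.Helper63.P705
open Real MeasureTheory Set Filter

/-- The incomplete Gamma integral. -/
noncomputable def gam (s : ℝ) : ℝ := ∫ t in (0 : ℝ)..80, Real.exp (-t) * t ^ (s - 1)

theorem cont_int {s : ℝ} (hs : 1 ≤ s) : Continuous fun t : ℝ => Real.exp (-t) * t ^ (s - 1) := by
  have h1 : Continuous fun t : ℝ => t ^ (s - 1) := Real.continuous_rpow_const (by linarith)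
  exact (Real.continuous_exp.comp continuous_neg).mul h1

theorem gam_rec {s : ℝ} (hs : 1 ≤ s) :
    s * gam s - gam (s + 1) = Real.exp (-80) * (80 : ℝ) ^ s := by
  have hder : ∀ t ∈ Set.uIcc (0 : ℝ) 80, HasDerivAt (fun t : ℝ => Real.exp (-t) * t ^ s)
      (s * (Real.exp (-t) * t ^ (s - 1)) - Real.exp (-t) * t ^ (s + 1 - 1)) t := by
    intro t _
    have h1 : HasDerivAt (fun t : ℝ => Real.exp (-t)) (Real.exp (-t) * (-1)) t :=
      (hasDerivAt_neg t).exp
    have h2 : HasDerivAt (fun t : ℝ => t ^ s) (s * t ^ (s - 1)) t :=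
      Real.hasDerivAt_rpow_const (Or.inr hs)
    refine (h1.mul h2).congr_deriv ?_
    rw [show s + 1 - 1 = s by ring]
    ring
  have hc1 := cont_int hs
  have hc2 := cont_int (s := s + 1) (by linarith)
  have hint : IntervalIntegrable (fun t : ℝ => s * (Real.exp (-t) * t ^ (s - 1)) -
      Real.exp (-t) * t ^ (s + 1 - 1)) volume 0 80 :=
    ((hc1.const_mul s).sub hc2).intervalIntegrable _ _
  have h := intervalIntegral.integral_eq_sub_of_hasDerivAt hder hint
  rw [intervalIntegral.integral_sub ((hc1.const_mul s).intervalIntegrable _ _)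
    (hc2.intervalIntegrable _ _), intervalIntegral.integral_const_mul] at h
  unfold gam
  rw [h, Real.zero_rpow (by linarith), mul_zero, sub_zero]

theorem gam_nonneg {s : ℝ} : 0 ≤ gam s := by
  unfold gam
  refine intervalIntegral.integral_nonneg (by norm_num) fun t ht => ?_
  exact mul_nonneg (Real.exp_pos _).le (Real.rpow_nonneg ht.1 _)

theorem gam_succ_le {s : ℝ} (hs : 1 ≤ s) : gam (s + 1) ≤ 80 * gam s := by
  unfold gam
  rw [← intervalIntegral.integral_const_mul]
  refine intervalIntegral.integral_mono_on (by norm_num)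
    ((cont_int (s := s + 1) (by linarith)).intervalIntegrable _ _)
    (((cont_int hs).const_mul 80).intervalIntegrable _ _) fun t ht => ?_
  have h1 : t ^ (s + 1 - 1) ≤ 80 * t ^ (s - 1) := by
    rcases ht.1.eq_or_lt with h | h
    · rw [← h, Real.zero_rpow (by linarith)]
      exact mul_nonneg (by norm_num) (Real.rpow_nonneg le_rfl _)
    · have : t ^ (s + 1 - 1) = t * t ^ (s - 1) := by
        rw [show s + 1 - 1 = 1 + (s - 1) by ring, Real.rpow_add h, Real.rpow_one]
      rw [this]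
      exact mul_le_mul_of_nonneg_right ht.2 (Real.rpow_nonneg h.le _)
  calc Real.exp (-t) * t ^ (s + 1 - 1) ≤ Real.exp (-t) * (80 * t ^ (s - 1)) :=
        mul_le_mul_of_nonneg_left h1 (Real.exp_pos _).le
    _ = 80 * (Real.exp (-t) * t ^ (s - 1)) := by ring

/-- normalized -/
noncomputable def GI (s : ℝ) : ℝ := Real.exp 80 * (80 : ℝ) ^ (-s) * gam s

theorem GI_rec {s : ℝ} (hs : 1 ≤ s) : GI s = 1 / s + 80 / s * GI (s + 1) := by
  have h := gam_rec hs
  have hs0 : s ≠ 0 := by linarith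
  have h1 : gam s = (Real.exp (-80) * (80 : ℝ) ^ s + gam (s + 1)) / s := by
    field_simp
    linarith
  unfold GI
  rw [h1, show -(s + 1) = -s - 1 by ring, Real.rpow_sub_one (by norm_num), Real.exp_neg,
    Real.rpow_neg (by norm_num)]
  have h2 : Real.exp 80 ≠ 0 := (Real.exp_pos _).ne'
  have h3 : (80 : ℝ) ^ s ≠ 0 := (Real.rpow_pos_of_pos (by norm_num) _).ne'
  field_simp

theorem GI_series {x : ℝ} (hx : 1 ≤ x) (m : ℕ) :
    GI x = ∑ k ∈ Finset.range m, (80 : ℝ) ^ k / ∏ i ∈ Finset.range (k + 1), (x + i) +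
      (80 : ℝ) ^ m / (∏ i ∈ Finset.range m, (x + i)) * GI (x + m) := by
  induction m with
  | zero => simp
  | succ m ih =>
    have hpos : ∀ n : ℕ, 0 < ∏ i ∈ Finset.range n, (x + i) := by
      intro n
      refine Finset.prod_pos fun i _ => ?_
      positivity
    rw [ih, Finset.sum_range_succ, GI_rec (s := x + m) (by
      have : (0 : ℝ) ≤ m := Nat.cast_nonneg m
      linarith)]
    have h1 := (hpos m).ne'
    have h2 : x + (m : ℝ) ≠ 0 := by positivity
    have h3 : x + ((m + 1 : ℕ) : ℝ) = x + m + 1 := by push_cast; ring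
    rw [h3, Finset.prod_range_succ]
    field_simp
    ring

theorem GI_le {s : ℝ} (hs : 80 < s) : GI s ≤ 1 / (s - 80) := by
  have h := gam_rec (s := s) (by linarith)
  have h1 := gam_succ_le (s := s) (by linarith)
  have h2 : (s - 80) * gam s ≤ Real.exp (-80) * (80 : ℝ) ^ s := by linarith
  unfold GI
  rw [le_div_iff₀ (by linarith)]
  have h3 : (0 : ℝ) < (80 : ℝ) ^ s := Real.rpow_pos_of_pos (by norm_num) _
  calc Real.exp 80 * (80 : ℝ) ^ (-s) * gam s * (s - 80) =
        Real.exp 80 * (80 : ℝ) ^ (-s) * ((s - 80) * gam s) := by ring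
    _ ≤ Real.exp 80 * (80 : ℝ) ^ (-s) * (Real.exp (-80) * (80 : ℝ) ^ s) :=
        mul_le_mul_of_nonneg_left h2 (by positivity)
    _ = 1 := by
        rw [Real.rpow_neg (by norm_num), Real.exp_neg]
        have h2 : Real.exp 80 ≠ 0 := (Real.exp_pos _).ne'
        field_simp

theorem GI_nonneg {s : ℝ} : 0 ≤ GI s := by
  unfold GI
  have := gam_nonneg (s := s)
  positivity

theorem hasDeriv_aux (t : ℝ) :
    HasDerivAt (fun t : ℝ => -((t + 1) * Real.exp (-t))) (t * Real.exp (-t)) t := by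
  have h1 : HasDerivAt (fun t : ℝ => Real.exp (-t)) (Real.exp (-t) * (-1)) t :=
    (hasDerivAt_neg t).exp
  have h2 : HasDerivAt (fun t : ℝ => t + 1) 1 t := (hasDerivAt_id t).add_const 1
  refine (h2.mul h1).neg.congr_deriv ?_
  ring

theorem tendsto_aux : Tendsto (fun t : ℝ => -((t + 1) * Real.exp (-t))) atTop (nhds 0) := by
  have h1 := Real.tendsto_pow_mul_exp_neg_atTop_nhds_zero 1
  have h0 := Real.tendsto_pow_mul_exp_neg_atTop_nhds_zero 0
  have h2 := (h1.add h0).neg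
  simp only [add_zero, neg_zero] at h2
  refine h2.congr fun t => ?_
  simp only [pow_one, pow_zero]
  ring

theorem int_tail : ∫ t in Ioi (80 : ℝ), t * Real.exp (-t) = 81 * Real.exp (-80) := by
  have h := integral_Ioi_of_hasDerivAt_of_nonneg' (a := (80 : ℝ))
    (g := fun t : ℝ => -((t + 1) * Real.exp (-t))) (g' := fun t : ℝ => t * Real.exp (-t))
    (fun t _ => hasDeriv_aux t) (fun t ht => by
      have ht' : (80 : ℝ) < t := ht
      positivity) tendsto_aux
  rw [h]
  ring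

theorem intOn_aux {a : ℝ} (ha : 0 ≤ a) : IntegrableOn (fun t : ℝ => t * Real.exp (-t)) (Ioi a) :=
  integrableOn_Ioi_deriv_of_nonneg' (g := fun t : ℝ => -((t + 1) * Real.exp (-t)))
    (fun t _ => hasDeriv_aux t) (fun t ht => by
      have ht' : a < t := ht
      have : 0 < t := by linarith
      positivity) tendsto_aux

theorem int01 : ∫ t in (0 : ℝ)..1, t * Real.exp (-t) = 1 - 2 * Real.exp (-1) := by
  rw [intervalIntegral.integral_eq_sub_of_hasDerivAt (fun t _ => hasDeriv_aux t)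
    ((continuous_id.mul (Real.continuous_exp.comp continuous_neg)).intervalIntegrable _ _)]
  simp
  ring

theorem gamma_int {x : ℝ} (hx : 1 ≤ x) :
    IntegrableOn (fun t : ℝ => Real.exp (-t) * t ^ (x - 1)) (Ioi 0) :=
  Real.GammaIntegral_convergent (by linarith)

theorem gamma_split {x a : ℝ} (hx : 1 ≤ x) (ha : 0 ≤ a) :
    Real.Gamma x = (∫ t in (0 : ℝ)..a, Real.exp (-t) * t ^ (x - 1)) +
      ∫ t in Ioi a, Real.exp (-t) * t ^ (x - 1) := by
  have h1 := gamma_int hx
  rw [Real.Gamma_eq_integral (by linarith), ← Ioc_union_Ioi_eq_Ioi ha, setIntegral_union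
    (Ioc_disjoint_Ioi le_rfl) measurableSet_Ioi (h1.mono_set Ioc_subset_Ioi_self)
    (h1.mono_set (Ioi_subset_Ioi ha)), intervalIntegral.integral_of_le ha]

theorem tail_le {x : ℝ} (hx : 1 ≤ x) (hx2 : x ≤ 2) :
    ∫ t in Ioi (80 : ℝ), Real.exp (-t) * t ^ (x - 1) ≤ 81 * Real.exp (-80) := by
  rw [← int_tail]
  refine setIntegral_mono_on ((gamma_int hx).mono_set (Ioi_subset_Ioi (by norm_num)))
    (intOn_aux (by norm_num)) measurableSet_Ioi fun t ht => ?_
  have ht' : (80 : ℝ) < t := ht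
  have h1 : t ^ (x - 1) ≤ t := by
    calc t ^ (x - 1) ≤ t ^ (1 : ℝ) := Real.rpow_le_rpow_of_exponent_le (by linarith) (by linarith)
      _ = t := Real.rpow_one t
  calc Real.exp (-t) * t ^ (x - 1) ≤ Real.exp (-t) * t :=
        mul_le_mul_of_nonneg_left h1 (Real.exp_pos _).le
    _ = t * Real.exp (-t) := mul_comm _ _

theorem tail_nonneg (x : ℝ) : 0 ≤ ∫ t in Ioi (80 : ℝ), Real.exp (-t) * t ^ (x - 1) := by
  refine setIntegral_nonneg measurableSet_Ioi fun t ht => ?_
  have ht' : (80 : ℝ) < t := ht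
  have : 0 < t := by linarith
  positivity

theorem gamma_lower {x : ℝ} (hx : 1 ≤ x) (hx2 : x ≤ 2) : 0.63 ≤ Real.Gamma x := by
  rw [gamma_split hx (a := 1) zero_le_one]
  have h1 : 1 - 2 * Real.exp (-1) ≤ ∫ t in (0 : ℝ)..1, Real.exp (-t) * t ^ (x - 1) := by
    rw [← int01]
    refine intervalIntegral.integral_mono_on zero_le_one
      ((continuous_id.mul (Real.continuous_exp.comp continuous_neg)).intervalIntegrable _ _)
      ((cont_int hx).intervalIntegrable _ _) fun t ht => ?_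
    have h1 : t ≤ t ^ (x - 1) := by
      rcases ht.1.eq_or_lt with h | h
      · rw [← h]
        exact Real.rpow_nonneg le_rfl _
      · calc t = t ^ (1 : ℝ) := (Real.rpow_one t).symm
          _ ≤ t ^ (x - 1) := Real.rpow_le_rpow_of_exponent_ge h ht.2 (by linarith)
    calc t * Real.exp (-t) ≤ t ^ (x - 1) * Real.exp (-t) :=
          mul_le_mul_of_nonneg_right h1 (Real.exp_pos _).le
      _ = Real.exp (-t) * t ^ (x - 1) := mul_comm _ _
  have h2 : Real.exp (-1) ≤ ∫ t in Ioi (1 : ℝ), Real.exp (-t) * t ^ (x - 1) := by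
    rw [← integral_exp_neg_Ioi]
    refine setIntegral_mono_on (integrableOn_exp_neg_Ioi 1)
      ((gamma_int hx).mono_set (Ioi_subset_Ioi (by norm_num))) measurableSet_Ioi fun t ht => ?_
    have ht' : (1 : ℝ) < t := ht
    have h1 : 1 ≤ t ^ (x - 1) := Real.one_le_rpow ht'.le (by linarith)
    calc Real.exp (-t) = Real.exp (-t) * 1 := (mul_one _).symm
      _ ≤ Real.exp (-t) * t ^ (x - 1) := mul_le_mul_of_nonneg_left h1 (Real.exp_pos _).le
  have h3 : Real.exp (-1) ≤ 0.3679 := by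
    have := Real.exp_one_gt_d9
    rw [Real.exp_neg, inv_le_comm₀ (Real.exp_pos _) (by norm_num)]
    refine le_trans ?_ this.le
    norm_num
  norm_num at h3 ⊢
  linarith

theorem gamma_upper {x : ℝ} (hx : 1 ≤ x) (hx2 : x ≤ 2) : Real.Gamma x ≤ 1 := by
  have h := Real.convexOn_Gamma.2 (show (1 : ℝ) ∈ Ioi (0 : ℝ) by norm_num)
    (show (2 : ℝ) ∈ Ioi (0 : ℝ) by norm_num)
    (show 0 ≤ 2 - x by linarith) (show 0 ≤ x - 1 by linarith) (by ring)
  simp only [smul_eq_mul, Real.Gamma_one, Real.Gamma_two, mul_one] at h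
  rw [show (2 - x) + (x - 1) * 2 = x by ring] at h
  linarith

theorem prod_ge {x : ℝ} (hx : 1 ≤ x) (n : ℕ) :
    (n.factorial : ℝ) ≤ ∏ i ∈ Finset.range n, (x + i) := by
  rw [← Finset.prod_range_add_one_eq_factorial]
  push_cast
  refine Finset.prod_le_prod (fun i _ => by positivity) fun i _ => by linarith

theorem num1 : (80 : ℝ) ^ 215 ≤ 109 * ((Nat.factorial 213 : ℕ) * 134) := by
  have : 80 ^ 215 ≤ 109 * (Nat.factorial 213 * 134) := by
    decide +kernel
  exact_mod_cast this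

theorem num2 : (190 : ℝ) * 2 ^ 107 ≤ 0.63 * Real.exp 80 := by
  have h1 : (2.7182818283 : ℝ) ^ 80 ≤ Real.exp 80 := by
    have := Real.exp_one_gt_d9
    have h2 : Real.exp 80 = Real.exp 1 ^ 80 := by
      rw [← Real.exp_nat_mul]; norm_num
    rw [h2]
    exact pow_le_pow_left₀ (by norm_num) this.le 80
  refine le_trans ?_ (mul_le_mul_of_nonneg_left h1 (by norm_num))
  norm_num

theorem n1 : Pool.Agent.Helper63.P705.N1 := by
  intro x hx hx2
  have hlow := gamma_lower hx hx2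
  refine ⟨le_trans (by norm_num) hlow, gamma_upper hx hx2, ?_⟩
  have hE : 0 < Real.exp 80 := Real.exp_pos _
  have hP : 0 < (80 : ℝ) ^ (-x) := Real.rpow_pos_of_pos (by norm_num) _
  have hsplit : gG x = GI x + Real.exp 80 * (80 : ℝ) ^ (-x) *
      ∫ t in Ioi (80 : ℝ), Real.exp (-t) * t ^ (x - 1) := by
    unfold gG GI gam
    rw [gamma_split hx (a := 80) (by norm_num)]
    ring
  have hser := GI_series hx 213
  set S := ∑ k ∈ Finset.range 213, (80 : ℝ) ^ k / ∏ i ∈ Finset.range (k + 1), (x + i) with hS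
  set R := (80 : ℝ) ^ 213 / (∏ i ∈ Finset.range 213, (x + i)) * GI (x + (213 : ℕ)) with hR
  have hprod := prod_ge hx 213
  have hfac : (0 : ℝ) < (Nat.factorial 213 : ℕ) := by
    exact_mod_cast Nat.factorial_pos 213
  have hR0 : 0 ≤ R := by
    rw [hR]
    refine mul_nonneg (div_nonneg (by positivity) (hfac.le.trans hprod)) GI_nonneg
  have hR1 : R ≤ 109 * (80 : ℝ) ^ (-x) := by
    have h1 : GI (x + (213 : ℕ)) ≤ 1 / 134 := by
      refine (GI_le (by push_cast; linarith)).trans ?_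
      push_cast
      exact one_div_le_one_div_of_le (by norm_num) (by linarith)
    have h2 : R ≤ (80 : ℝ) ^ 213 / (Nat.factorial 213 : ℕ) * (1 / 134) := by
      rw [hR]
      exact mul_le_mul (div_le_div_of_nonneg_left (by positivity) hfac hprod) h1 GI_nonneg
        (by positivity)
    have h3 : (80 : ℝ) ^ 213 / (Nat.factorial 213 : ℕ) * (1 / 134) ≤ 109 * (80 : ℝ) ^ (-2 : ℝ) := by
      have h4 : (80 : ℝ) ^ (-2 : ℝ) = 1 / 6400 := by
        rw [Real.rpow_neg (by norm_num)]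
        norm_num
      rw [h4, div_mul_div_comm, mul_one, div_le_iff₀ (by positivity)]
      have h5 := num1
      have h6 : (80 : ℝ) ^ 215 = 80 ^ 213 * 6400 := by
        rw [show (215 : ℕ) = 213 + 2 by norm_num, pow_add]; norm_num
      rw [h6] at h5
      linarith
    have h4 : (80 : ℝ) ^ (-2 : ℝ) ≤ (80 : ℝ) ^ (-x) :=
      Real.rpow_le_rpow_of_exponent_le (by norm_num) (by linarith)
    calc R ≤ _ := h2
      _ ≤ 109 * (80 : ℝ) ^ (-2 : ℝ) := h3
      _ ≤ 109 * (80 : ℝ) ^ (-x) := by linarith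
  have hT0 : 0 ≤ Real.exp 80 * (80 : ℝ) ^ (-x) *
      ∫ t in Ioi (80 : ℝ), Real.exp (-t) * t ^ (x - 1) :=
    mul_nonneg (mul_pos hE hP).le (tail_nonneg x)
  have hT1 : Real.exp 80 * (80 : ℝ) ^ (-x) *
      ∫ t in Ioi (80 : ℝ), Real.exp (-t) * t ^ (x - 1) ≤ 81 * (80 : ℝ) ^ (-x) := by
    calc Real.exp 80 * (80 : ℝ) ^ (-x) * ∫ t in Ioi (80 : ℝ), Real.exp (-t) * t ^ (x - 1) ≤
          Real.exp 80 * (80 : ℝ) ^ (-x) * (81 * Real.exp (-80)) :=
          mul_le_mul_of_nonneg_left (tail_le hx hx2) (mul_pos hE hP).le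
      _ = 81 * (80 : ℝ) ^ (-x) * (Real.exp 80 * Real.exp (-80)) := by ring
      _ = 81 * (80 : ℝ) ^ (-x) := by rw [← Real.exp_add]; simp
  have hdiff : gG x - S = R + Real.exp 80 * (80 : ℝ) ^ (-x) *
      ∫ t in Ioi (80 : ℝ), Real.exp (-t) * t ^ (x - 1) := by
    rw [hsplit, hser]
    ring
  rw [abs_of_nonneg (by rw [hdiff]; exact add_nonneg hR0 hT0), hdiff]
  have hg : 0.63 * Real.exp 80 * (80 : ℝ) ^ (-x) ≤ gG x := by
    unfold gG
    calc 0.63 * Real.exp 80 * (80 : ℝ) ^ (-x) = 0.63 * ((80 : ℝ) ^ (-x) * Real.exp 80) := by ring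
      _ ≤ Real.Gamma x * ((80 : ℝ) ^ (-x) * Real.exp 80) :=
          mul_le_mul_of_nonneg_right hlow (by positivity)
      _ = Real.Gamma x * (80 : ℝ) ^ (-x) * Real.exp 80 := by ring
  have hfin : 190 * (80 : ℝ) ^ (-x) ≤ 2⁻¹ ^ 107 * (0.63 * Real.exp 80 * (80 : ℝ) ^ (-x)) := by
    have h := num2
    have h2 : (190 : ℝ) ≤ 2⁻¹ ^ 107 * (0.63 * Real.exp 80) := by
      rw [inv_pow, inv_mul_eq_div, le_div_iff₀ (by positivity)]
      exact h
    calc 190 * (80 : ℝ) ^ (-x) ≤ 2⁻¹ ^ 107 * (0.63 * Real.exp 80) * (80 : ℝ) ^ (-x) :=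
          mul_le_mul_of_nonneg_right h2 hP.le
      _ = _ := by ring
  calc R + Real.exp 80 * (80 : ℝ) ^ (-x) * ∫ t in Ioi (80 : ℝ), Real.exp (-t) * t ^ (x - 1) ≤
        109 * (80 : ℝ) ^ (-x) + 81 * (80 : ℝ) ^ (-x) := add_le_add hR1 hT1
    _ = 190 * (80 : ℝ) ^ (-x) := by ring
    _ ≤ _ := hfin
    _ ≤ 2⁻¹ ^ 107 * gG x := mul_le_mul_of_nonneg_left hg (by positivity)

end Pool.Agent.Helper32.P705
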